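import Pool.Agent.Lib.MP_2eed13_lc.LCA.Base

/-!
# BLOCK: blocks of the space-time diagram (module of project LCA)
-/

set_option autoImplicit false

namespace Pool.Agent.Lib.MP_2eed13_lc.LCA.H39

open Finset

/-- The content of the `B` places `z, …, z + B - 1` at time `t`. -/
def content (q B : ℕ) (cfg : ℕ → ℤ → ℕ) (t : ℕ) (z : ℤ) : ℕ :=
  ∑ k ∈ range B, cfg t (z + k) * q ^ k

theorem content_add (q A B : ℕ) (cfg : ℕ → ℤ → ℕ) (t : ℕ) (z : ℤ) :
    content q (A + B) cfg t z = content q A cfg t z + content q B cfg t (z + A) * q ^ A := by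
  unfold content
  rw [sum_range_add, sum_mul]
  congr 1
  refine sum_congr rfl fun k _ => ?_
  rw [pow_add]
  push_cast
  rw [← add_assoc]
  ring

theorem leaf (C β s0 B J n i : ℕ) (hC : 2 ^ (3 * (B * β)) ≤ C)
    (cfg : ℕ → ℤ → ℕ) (h0 : ∀ z : ℤ, cfg 0 z = if 1 ≤ z ∧ z ≤ n then s0 else 0) :
    cont C (2 ^ β) s0 B J n i = content (2 ^ β) B cfg 0 (((i : ℤ) - J) * B) := by
  unfold cont content
  refine sum_congr rfl fun k hk => ?_
  have hk' : k < B := mem_range.1 hk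
  have hp : powc (2 ^ β) k C = (2 ^ β) ^ k := by
    unfold powc
    refine min_eq_left (le_trans ?_ hC)
    rw [← pow_mul]
    refine Nat.pow_le_pow_right (by norm_num) ?_
    have h1 : β * k ≤ β * B := Nat.mul_le_mul_left _ hk'.le
    have h2 : B * β = β * B := mul_comm _ _
    omega
  rw [hp, h0]
  congr 1
  have e : ((i : ℤ) - J) * B + k = (i * B + k : ℕ) - (J * B : ℕ) := by
    push_cast
    ring
  rw [e]
  refine if_congr ?_ rfl rfl
  constructor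
  · rintro ⟨h1, h2⟩
    constructor <;> omega
  · rintro ⟨h1, h2⟩
    constructor <;> omega

theorem tval_eq (h1 : RowStatement) (β T s0 n B J C : ℕ) (hβ : 1 ≤ β) (hB : 2 ≤ B)
    (hC : 2 ^ (3 * (B * β)) ≤ C) (cfg : ℕ → ℤ → ℕ) (hq : ∀ t z, cfg t z < 2 ^ β)
    (hr : ∀ t z, cfg (t + 1) z = rule (2 ^ β) T (cfg t (z - 1)) (cfg t z) (cfg t (z + 1)))
    (h0 : ∀ z : ℤ, cfg 0 z = if 1 ≤ z ∧ z ≤ n then s0 else 0) :
    ∀ j i : ℕ, j ≤ i → tval (B * β) (blockMap C (2 ^ β) T B) (cont C (2 ^ β) s0 B J n) j i =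
      content (2 ^ β) B cfg (j * B) (((i : ℤ) - J) * B) := by
  intro j
  induction j with
  | zero =>
    intro i _
    rw [Nat.zero_mul]
    exact leaf C β s0 B J n i hC cfg h0
  | succ j ih =>
    intro i hi
    show blockMap C (2 ^ β) T B _ = _
    rw [ih (i - 1) (by omega), ih i (by omega), ih (i + 1) (by omega)]
    have e1 : (((i - 1 : ℕ) : ℤ) - J) * B = (((i : ℤ) - J) * B - B) := by
      rw [Nat.cast_sub (by omega)]
      push_cast
      ring
    have e2 : (((i + 1 : ℕ) : ℤ) - J) * B = (((i : ℤ) - J) * B - B) + (B : ℤ) + (B : ℤ) := by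
      push_cast
      ring
    have e3 : ((i : ℤ) - J) * B = (((i : ℤ) - J) * B - B) + (B : ℤ) := by ring
    have e4 : (2 : ℕ) ^ (B * β) = (2 ^ β) ^ B := by rw [← pow_mul, mul_comm]
    have e5 : (2 : ℕ) ^ (2 * (B * β)) = (2 ^ β) ^ B * (2 ^ β) ^ B := by
      rw [← pow_mul, ← pow_add]
      congr 1
      ring
    have e6 : content (2 ^ β) B cfg (j * B) (((i - 1 : ℕ) - J) * B) +
        content (2 ^ β) B cfg (j * B) (((i : ℤ) - J) * B) * 2 ^ (B * β) +
        content (2 ^ β) B cfg (j * B) (((i + 1 : ℕ) - J) * B) * 2 ^ (2 * (B * β)) =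
        content (2 ^ β) (3 * B) cfg (j * B) (((i : ℤ) - J) * B - B) := by
      have e7 : 3 * B = B + (B + B) := by ring
      rw [e7, content_add, content_add, e1, e2, e4, e5]
      have e8 : content (2 ^ β) B cfg (j * B) (((i : ℤ) - J) * B - B + B) =
          content (2 ^ β) B cfg (j * B) (((i : ℤ) - J) * B) := by
        rw [← e3]
      rw [e8]
      ring
    rw [e6]
    have h := h1 β T B C hβ (by omega) hC cfg hq hr (j * B) (((i : ℤ) - J) * B - B)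
    unfold content
    rw [h]
    have e9 : (j + 1) * B = j * B + B := by ring
    rw [e9]
    refine sum_congr rfl fun k _ => ?_
    rw [← e3]

theorem dig_content (β B : ℕ) (hβ : 1 ≤ β) (hB : 2 ≤ B) (cfg : ℕ → ℤ → ℕ) (t : ℕ)
    (hq : ∀ t z, cfg t z < 2 ^ β) :
    dig 2 (content (2 ^ β) B cfg t 0) β = cfg t 1 % 2 := by
  obtain ⟨B', rfl⟩ : ∃ B', B = B' + 2 := ⟨B - 2, by omega⟩
  obtain ⟨β', rfl⟩ : ∃ β', β = β' + 1 := ⟨β - 1, by omega⟩
  unfold dig content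
  rw [sum_range_succ', sum_range_succ']
  have e1 : ∑ k ∈ range B', cfg t (0 + ((k + 1 + 1 : ℕ) : ℤ)) * (2 ^ (β' + 1)) ^ (k + 1 + 1) =
      2 ^ (β' + 1) * (2 * (2 ^ β' * ∑ k ∈ range B', cfg t (0 + ((k + 1 + 1 : ℕ) : ℤ)) *
        (2 ^ (β' + 1)) ^ k)) := by
    rw [mul_sum, mul_sum, mul_sum]
    refine sum_congr rfl fun k _ => ?_
    ring
  rw [e1]
  set S := 2 ^ β' * ∑ k ∈ range B', cfg t (0 + ((k + 1 + 1 : ℕ) : ℤ)) * (2 ^ (β' + 1)) ^ k
  have e2 : 2 ^ (β' + 1) * (2 * S) + cfg t (0 + ((0 + 1 : ℕ) : ℤ)) * (2 ^ (β' + 1)) ^ (0 + 1) +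
      cfg t (0 + ((0 : ℕ) : ℤ)) * (2 ^ (β' + 1)) ^ 0 =
      cfg t 0 + 2 ^ (β' + 1) * (cfg t 1 + 2 * S) := by
    simp
    ring
  rw [e2, Nat.add_mul_div_left _ _ (by positivity), Nat.div_eq_of_lt (hq t 0), zero_add,
    Nat.add_mul_mod_self_left]

theorem block (h1 : RowStatement) (h2 : CodeStatement) : BlockStatement := by
  intro Q finQ s δ F
  obtain ⟨β, T, s0, hβ, hs0, hc⟩ := h2 Q finQ s δ F
  refine ⟨β, T, s0, hβ, hs0, fun n B J C hn hB hC => ?_⟩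
  obtain ⟨cfg, hq, hr, h0, hflag⟩ := hc n hn
  rw [tval_eq h1 β T s0 n B J C hβ hB hC cfg hq hr h0 J J le_rfl, sub_self, zero_mul,
    dig_content β B hβ hB cfg (J * B) hq]
  exact hflag (J * B)

end Pool.Agent.Lib.MP_2eed13_lc.LCA.H39
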