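import Pool.Agent.Lib.MP_2eed13_lc.LCA.Base

/-!
# COMPILE: from bounded while programs to arrays (module of project LCA)
-/

set_option autoImplicit false

namespace Pool.Agent.Lib.MP_2eed13_lc.LCA.H39

/-- An absorbing label stays. -/
theorem absorb (G : Goto) (l : G.L) (h : ∀ b, G.next l b = l) (x : G.L × (ℕ → ℕ))
    (t m : ℕ) (hx : (G.step^[t] x).1 = l) : (G.step^[t + m] x).1 = l := by
  induction m with
  | zero => simpa using hx
  | succ m ih =>
    rw [← add_assoc, Function.iterate_succ_apply']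
    show G.next (G.step^[t + m] x).1 _ = l
    rw [ih]
    exact h _

theorem compile (h1 : SweepStatement) (h2 : GotoStatement) (h3 : DigitStatement) :
    CompileStatement := by
  intro p b D hb hD
  obtain ⟨G, l0, acc, rej, hne, hacc, hrej, -, -, hG⟩ := h2 p
  obtain ⟨M, lab, hM⟩ := h3 G l0 b hb
  obtain ⟨Q, finQ, s, δ, F, hQ⟩ := h1 M {x | lab x = acc}
  refine ⟨Q, finQ, s, δ, F, fun n hn => ?_⟩
  rw [← hQ n hn]
  obtain ⟨τ, hex, hτ⟩ := hD n hn
  obtain ⟨hsafe, t, ht⟩ := hG _ _ _ hex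
  have hlab := hM n hn hsafe
  rw [← hτ]
  constructor
  · intro hτ1
    refine ⟨t, ?_⟩
    show lab _ = acc
    rw [hlab, ht, if_neg hτ1]
  · rintro ⟨r, hr⟩ h0
    have hr' : (G.step^[r] (l0, initReg n)).1 = acc := by
      rw [← hlab]
      exact hr
    rw [if_pos h0] at ht
    have e1 := absorb G acc hacc _ r t hr'
    have e2 := absorb G rej hrej _ t r ht
    rw [add_comm] at e1
    exact hne (e1.symm.trans e2)

end Pool.Agent.Lib.MP_2eed13_lc.LCA.H39
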