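import Pool.Agent.Lib.MP_2eed13_lc.LCA.Base

/-!
# TOP: the program that computes `2 ^ n` and then runs a program for `f` (module of project LCA)
-/

set_option autoImplicit false

namespace Pool.Agent.Lib.MP_2eed13_lc.LCA.H39

/-- The state with registers `0, 1, 2` equal to `a, x, y` and all others zero. -/
def st (a x y : ℕ) : ℕ → ℕ :=
  fun i => if i = 0 then a else if i = 1 then x else if i = 2 then y else 0

theorem e_dec0 (Bd a x y : ℕ) : Exec Bd (.dec 0) (st a x y) (st (a - 1) x y) := by
  have h := Exec.dec (Bd := Bd) (i := 0) (σ := st a x y)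
  have e : Function.update (st a x y) 0 (st a x y 0 - 1) = st (a - 1) x y := by
    funext i
    by_cases hi : i = 0
    · subst hi; simp [st]
    · simp [st, hi]
  rwa [e] at h

theorem e_dec1 (Bd a x y : ℕ) : Exec Bd (.dec 1) (st a x y) (st a (x - 1) y) := by
  have h := Exec.dec (Bd := Bd) (i := 1) (σ := st a x y)
  have e : Function.update (st a x y) 1 (st a x y 1 - 1) = st a (x - 1) y := by
    funext i
    by_cases hi : i = 1
    · subst hi; simp [st]
    · simp [st, hi]
  rwa [e] at h

theorem e_dec2 (Bd a x y : ℕ) : Exec Bd (.dec 2) (st a x y) (st a x (y - 1)) := by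
  have h := Exec.dec (Bd := Bd) (i := 2) (σ := st a x y)
  have e : Function.update (st a x y) 2 (st a x y 2 - 1) = st a x (y - 1) := by
    funext i
    by_cases hi : i = 2
    · subst hi; simp [st]
    · simp [st, hi]
  rwa [e] at h

theorem e_inc1 (Bd a x y : ℕ) (hx : x + 1 < Bd) :
    Exec Bd (.inc 1) (st a x y) (st a (x + 1) y) := by
  have h := Exec.inc (Bd := Bd) (i := 1) (σ := st a x y) (by norm_num) (by simpa [st] using hx)
  have e : Function.update (st a x y) 1 (st a x y 1 + 1) = st a (x + 1) y := by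
    funext i
    by_cases hi : i = 1
    · subst hi; simp [st]
    · simp [st, hi]
  rwa [e] at h

theorem e_inc2 (Bd a x y : ℕ) (hy : y + 1 < Bd) :
    Exec Bd (.inc 2) (st a x y) (st a x (y + 1)) := by
  have h := Exec.inc (Bd := Bd) (i := 2) (σ := st a x y) (by norm_num) (by simpa [st] using hy)
  have e : Function.update (st a x y) 2 (st a x y 2 + 1) = st a x (y + 1) := by
    funext i
    by_cases hi : i = 2
    · subst hi; simp [st]
    · simp [st, hi]
  rwa [e] at h

/-- Move register `1` twice to register `2`. -/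
def dbl1 : Cmd := .loop 1 (.seq (.dec 1) (.seq (.inc 2) (.inc 2)))
/-- Move register `2` to register `1`. -/
def dbl2 : Cmd := .loop 2 (.seq (.dec 2) (.inc 1))

theorem e_dbl1 (Bd a : ℕ) : ∀ x y : ℕ, y + 2 * x < Bd →
    Exec Bd dbl1 (st a x y) (st a 0 (y + 2 * x)) := by
  intro x
  induction x with
  | zero =>
    intro y _
    exact Exec.loop_zero (by simp [st])
  | succ x ih =>
    intro y h
    have h2 := ih (y + 1 + 1) (by omega)
    have e : y + 1 + 1 + 2 * x = y + 2 * (x + 1) := by ring
    rw [e] at h2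
    refine Exec.loop_pos (τ := st a x (y + 1 + 1)) (by simp [st]) ?_ h2
    refine Exec.seq (τ := st a x y) ?_ (Exec.seq (e_inc2 Bd a x y (by omega))
      (e_inc2 Bd a x (y + 1) (by omega)))
    exact e_dec1 Bd a (x + 1) y

theorem e_dbl2 (Bd a : ℕ) : ∀ y x : ℕ, x + y < Bd →
    Exec Bd dbl2 (st a x y) (st a (x + y) 0) := by
  intro y
  induction y with
  | zero =>
    intro x _
    exact Exec.loop_zero (by simp [st])
  | succ y ih =>
    intro x h
    have h2 := ih (x + 1) (by omega)
    have e : x + 1 + y = x + (y + 1) := by ring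
    rw [e] at h2
    refine Exec.loop_pos (τ := st a (x + 1) y) (by simp [st]) ?_ h2
    refine Exec.seq (τ := st a x y) ?_ (e_inc1 Bd a x y (by omega))
    exact e_dec2 Bd a x (y + 1)

/-- Compute the power of two. -/
def powCmd : Cmd := .loop 0 (.seq (.dec 0) (.seq dbl1 dbl2))

theorem e_pow (Bd : ℕ) : ∀ a x : ℕ, 2 ^ a * x < Bd →
    Exec Bd powCmd (st a x 0) (st 0 (2 ^ a * x) 0) := by
  intro a
  induction a with
  | zero =>
    intro x _
    rw [pow_zero, one_mul]
    exact Exec.loop_zero (by simp [st])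
  | succ a ih =>
    intro x h
    have e : 2 ^ a * (2 * x) = 2 ^ (a + 1) * x := by ring
    have h2 := ih (2 * x) (by rw [e]; exact h)
    rw [e] at h2
    have hx : 2 * x < Bd := by
      have : 2 * x ≤ 2 ^ (a + 1) * x := by
        apply Nat.mul_le_mul_right
        rw [pow_succ]
        have := Nat.one_le_two_pow (n := a)
        omega
      omega
    refine Exec.loop_pos (τ := st a (2 * x) 0) (by simp [st]) ?_ h2
    refine Exec.seq (τ := st a x 0) (e_dec0 Bd (a + 1) x 0) ?_
    have h3 := e_dbl1 Bd a x 0 (by omega)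
    have h4 := e_dbl2 Bd a (0 + 2 * x) 0 (by omega)
    rw [zero_add] at h3 h4
    rw [zero_add] at h4
    exact Exec.seq h3 h4

theorem top (h1 : CompileStatement) : TopStatement := by
  rintro f ⟨p, R, c, -, -, hp⟩
  refine h1 (.seq (.inc 1) (.seq powCmd p)) (4 ^ (c + 2)) _ ?_ ?_
  · calc 2 ≤ 4 ^ 1 := by norm_num
      _ ≤ 4 ^ (c + 2) := Nat.pow_le_pow_right (by norm_num) (by omega)
  · intro n hn
    have hB : (2 ^ n + 2) ^ c * 16 ≤ (4 ^ (c + 2)) ^ n := by
      have e1 : 2 ^ n + 2 ≤ 4 ^ n := by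
        have e2 : (4 : ℕ) ^ n = 2 ^ n * 2 ^ n := by
          rw [← mul_pow]
          norm_num
        have e3 : 2 ≤ 2 ^ n := by
          calc 2 = 2 ^ 1 := rfl
            _ ≤ 2 ^ n := Nat.pow_le_pow_right (by norm_num) hn
        rw [e2]
        nlinarith
      calc (2 ^ n + 2) ^ c * 16 ≤ (4 ^ n) ^ c * 4 ^ (2 * n) := by
            apply Nat.mul_le_mul (Nat.pow_le_pow_left e1 c)
            calc 16 = 4 ^ 2 := rfl
              _ ≤ 4 ^ (2 * n) := Nat.pow_le_pow_right (by norm_num) (by omega)
        _ = (4 ^ (c + 2)) ^ n := by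
            rw [← pow_mul, ← pow_add, ← pow_mul]
            congr 1
            ring
    have hB1 : 1 ≤ (2 ^ n + 2) ^ c := Nat.one_le_pow _ _ (by positivity)
    have hB2 : 2 ^ n * 1 < (4 ^ (c + 2)) ^ n := by
      have : (2 : ℕ) ^ n < 4 ^ n := Nat.pow_lt_pow_left (by norm_num) (by omega)
      have h5 : (4 : ℕ) ^ n ≤ (4 ^ (c + 2)) ^ n := by
        apply Nat.pow_le_pow_left
        calc 4 = 4 ^ 1 := by norm_num
          _ ≤ 4 ^ (c + 2) := Nat.pow_le_pow_right (by norm_num) (by omega)
      omega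
    refine ⟨Function.update (st 0 (2 ^ n * 1) 0) 1 (f (2 ^ n)), ?_, ?_⟩
    · have e0 : initReg n = st n 0 0 := by
        funext i
        by_cases hi : i = 0
        · subst hi; simp [st, initReg]
        · simp [st, initReg, hi]
      rw [e0]
      refine Exec.seq (e_inc1 _ n 0 0 (by omega)) (Exec.seq (e_pow _ n 1 hB2) ?_)
      refine hp (2 ^ n) _ _ (by omega) (by simp [st]) ?_
      intro i hi _
      have h6 : i ≠ 0 := by omega
      have h7 : i ≠ 1 := by omega
      simp [st, h6, h7]
    · simp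

end Pool.Agent.Lib.MP_2eed13_lc.LCA.H39
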